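import Pool.Agent.PRT.StmtsB

/-!
# Squad PRT, row DIF: the diffeomorphism criterion
-/

set_option autoImplicit false

namespace Pool.Agent.PRT.H75

open Set MeasureTheory Filter Topology
open scoped ContDiff
open Pool.Agent.PRT

/-! ### the unit square and integer translations -/

/-- the half open square -/
def Q0 : Set E := Ico (0 : ℝ) 1 ×ˢ Ico (0 : ℝ) 1

/-- integer vectors -/
def jv (w : ℤ × ℤ) : E := iv w.1 w.2

theorem q0_meas : MeasurableSet Q0 := measurableSet_Ico.prod measurableSet_Ico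

theorem q0_vol : volume Q0 = 1 := by
  unfold Q0
  rw [Measure.volume_eq_prod, Measure.prod_prod, Real.volume_Ico]
  norm_num

theorem q0_sub : Q0 ⊆ Q := prod_mono Ico_subset_Icc_self Ico_subset_Icc_self

theorem q0_ex (z : E) : ∃ w, z - jv w ∈ Q0 := by
  refine ⟨(⌊z.1⌋, ⌊z.2⌋), ?_⟩
  unfold Q0 jv iv
  rw [mem_prod]
  refine ⟨⟨?_, ?_⟩, ⟨?_, ?_⟩⟩
  · exact sub_nonneg.2 (Int.floor_le z.1)
  · have := Int.lt_floor_add_one z.1
    show z.1 - (⌊z.1⌋ : ℝ) < 1
    linarith
  · exact sub_nonneg.2 (Int.floor_le z.2)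
  · have := Int.lt_floor_add_one z.2
    show z.2 - (⌊z.2⌋ : ℝ) < 1
    linarith

/-- translates of the half open square -/
def Tw (w : ℤ × ℤ) : Set E := {z | z - jv w ∈ Q0}

theorem tw_meas (w : ℤ × ℤ) : MeasurableSet (Tw w) :=
  q0_meas.preimage (measurable_id.sub_const (jv w))

theorem tw_union : ⋃ w, Tw w = univ := by
  rw [eq_univ_iff_forall]
  intro z
  obtain ⟨w, hw⟩ := q0_ex z
  exact mem_iUnion.2 ⟨w, hw⟩

theorem fl_unique {x : ℝ} {a b : ℤ} (h1 : 0 ≤ x - a) (h2 : x - a < 1) (h3 : 0 ≤ x - b)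
    (h4 : x - b < 1) : a = b := by
  have e1 : ⌊x⌋ = a := Int.floor_eq_iff.2 ⟨by linarith, by linarith⟩
  have e2 : ⌊x⌋ = b := Int.floor_eq_iff.2 ⟨by linarith, by linarith⟩
  rw [← e1, ← e2]

theorem tw_disj : Pairwise (Function.onFun Disjoint Tw) := by
  intro w w' hne
  rw [Function.onFun, Set.disjoint_left]
  intro z hz hz'
  apply hne
  have h1 : z - jv w ∈ Q0 := hz
  have h2 : z - jv w' ∈ Q0 := hz'
  obtain ⟨⟨a1, a2⟩, a3, a4⟩ := h1
  obtain ⟨⟨b1, b2⟩, b3, b4⟩ := h2
  exact Prod.ext (fl_unique a1 a2 b1 b2) (fl_unique a3 a4 b3 b4)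

theorem vol_split (S : Set E) : volume S = ∑' w, volume (Tw w ∩ S) := by
  have h : (volume.restrict S) (⋃ w, Tw w) = ∑' w, (volume.restrict S) (Tw w) :=
    measure_iUnion tw_disj tw_meas
  rw [tw_union, Measure.restrict_apply_univ] at h
  rw [h]
  exact tsum_congr fun w => Measure.restrict_apply (tw_meas w)

theorem vol_shift (S : Set E) (v : E) : volume {z | z + v ∈ S} = volume S :=
  measure_preimage_add_right volume v S

/-- a set which meets all classes has measure at least one -/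
theorem vol_ge (S : Set E) (h : ∀ y : E, ∃ w, y + jv w ∈ S) : 1 ≤ volume S := by
  rw [← q0_vol, vol_split S]
  have h1 : Q0 ⊆ ⋃ w, {z | z + jv w ∈ Tw w ∩ S} := by
    intro z hz
    obtain ⟨w, hw⟩ := h z
    refine mem_iUnion.2 ⟨w, ?_, hw⟩
    show z + jv w - jv w ∈ Q0
    rw [add_sub_cancel_right]
    exact hz
  calc volume Q0 ≤ volume (⋃ w, {z | z + jv w ∈ Tw w ∩ S}) := measure_mono h1
    _ ≤ ∑' w, volume {z | z + jv w ∈ Tw w ∩ S} := measure_iUnion_le _
    _ = ∑' w, volume (Tw w ∩ S) := tsum_congr fun w => vol_shift _ _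

/-- a nonempty open set has a translate with a part of positive measure in the square -/
theorem vol_pos {B : Set E} (hB : IsOpen B) (hne : B.Nonempty) :
    ∃ w, 0 < volume (Q0 ∩ {z | z + jv w ∈ B}) := by
  have h1 : volume (⋃ w, Tw w ∩ B) ≠ 0 := by
    rw [← iUnion_inter, tw_union, univ_inter]
    exact (hB.measure_pos volume hne).ne'
  obtain ⟨w, hw⟩ := exists_measure_pos_of_not_measure_iUnion_null h1
  refine ⟨w, ?_⟩
  rw [← vol_shift (Tw w ∩ B) (jv w)] at hw
  have e : {z | z + jv w ∈ Tw w ∩ B} = Q0 ∩ {z | z + jv w ∈ B} := by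
    ext z
    show (z + jv w - jv w ∈ Q0 ∧ z + jv w ∈ B) ↔ (z ∈ Q0 ∧ z + jv w ∈ B)
    rw [add_sub_cancel_right]
  rw [e] at hw
  exact hw

/-! ### the map -/

section

variable {U : E → E}

theorem eqv_j (hE : Eqv U) (z : E) (w : ℤ × ℤ) : U (z + jv w) = U z + jv w := hE w.1 w.2 z

theorem eqv_jm (hE : Eqv U) (z : E) (w : ℤ × ℤ) : U (z - jv w) = U z - jv w := by
  have h := eqv_j hE (z - jv w) w
  rw [sub_add_cancel] at h
  rw [h, add_sub_cancel_right]

theorem bdd (hs : Continuous U) (hE : Eqv U) : ∃ C : ℝ, ∀ z, ‖U z - z‖ ≤ C := by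
  have hc : IsCompact Q := isCompact_Icc.prod isCompact_Icc
  obtain ⟨C, hC⟩ := hc.exists_bound_of_continuousOn (f := fun z => U z - z)
    (hs.sub continuous_id).continuousOn
  refine ⟨C, fun z => ?_⟩
  obtain ⟨w, hw⟩ := q0_ex z
  have h := hC _ (q0_sub hw)
  rw [eqv_jm hE] at h
  have e : U z - jv w - (z - jv w) = U z - z := by abel
  rw [e] at h
  exact h

theorem strict (hs : ContDiff ℝ ∞ U) (z : E) : HasStrictFDerivAt U (fderiv ℝ U z) z :=
  hs.contDiffAt.hasStrictFDerivAt (by simp)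

theorem opn (hs : ContDiff ℝ ∞ U) (hd : ∀ z, 0 < (fderiv ℝ U z).det) : IsOpenMap U := by
  rw [isOpenMap_iff_nhds_le]
  intro z
  have h : HasStrictFDerivAt U (((fderiv ℝ U z).toContinuousLinearEquivOfDetNeZero
      (hd z).ne' : E ≃L[ℝ] E) : E →L[ℝ] E) z := by
    rw [ContinuousLinearMap.coe_toContinuousLinearEquivOfDetNeZero]
    exact strict hs z
  exact h.map_nhds_eq_of_equiv.ge

theorem surj (hs : ContDiff ℝ ∞ U) (hE : Eqv U) (hd : ∀ z, 0 < (fderiv ℝ U z).det) :
    Function.Surjective U := by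
  have hc : Continuous U := hs.continuous
  obtain ⟨C, hC⟩ := bdd hc hE
  have hp : IsProperMap U := by
    rw [isProperMap_iff_tendsto_cocompact]
    refine ⟨hc, ?_⟩
    rw [← Metric.cobounded_eq_cocompact, ← tendsto_norm_atTop_iff_cobounded]
    refine tendsto_atTop_mono (f := fun z : E => ‖z‖ - C) (fun z => ?_)
      (tendsto_atTop_add_const_right _ (-C) tendsto_norm_cobounded_atTop)
    have h1 : ‖z‖ ≤ ‖U z‖ + ‖U z - z‖ := by
      have e : z = U z - (U z - z) := by abel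
      calc ‖z‖ = ‖U z - (U z - z)‖ := by rw [← e]
        _ ≤ _ := norm_sub_le _ _
    have := hC z
    linarith
  have hcl : IsClosed (range U) := hp.isClosedMap.isClosed_range
  have hop : IsOpen (range U) := (opn hs hd).isOpen_range
  have h : range U = univ := IsClopen.eq_univ ⟨hcl, hop⟩ ⟨U 0, 0, rfl⟩
  exact range_eq_univ.1 h

theorem dist_int {x : ℝ} (h : ∀ n : ℤ, x ≠ n) : ∃ d : ℝ, 0 < d ∧ ∀ n : ℤ, d ≤ |x - n| :=
  ⟨|x - round x|, abs_pos.2 (sub_ne_zero.2 (h (round x))), fun n => round_le x n⟩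

theorem dist_vec {z : E} (h : ∀ w, z ≠ jv w) : ∃ d : ℝ, 0 < d ∧ ∀ w, d ≤ ‖z - jv w‖ := by
  by_cases h1 : ∀ n : ℤ, z.1 ≠ n
  · obtain ⟨d, hd, hdn⟩ := dist_int h1
    exact ⟨d, hd, fun w => (hdn w.1).trans (norm_fst_le (z - jv w))⟩
  · by_cases h2 : ∀ n : ℤ, z.2 ≠ n
    · obtain ⟨d, hd, hdn⟩ := dist_int h2
      exact ⟨d, hd, fun w => (hdn w.2).trans (norm_snd_le (z - jv w))⟩
    · push Not at h1 h2
      obtain ⟨a, ha⟩ := h1
      obtain ⟨b, hb⟩ := h2
      exact absurd (Prod.ext ha hb : z = jv (a, b)) (h (a, b))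

theorem jv_sub (w w' : ℤ × ℤ) : jv (w - w') = jv w - jv w' := by
  unfold jv iv
  ext <;> simp

theorem inj (hItg : ItgStmt) (hs : ContDiff ℝ ∞ U) (hE : Eqv U)
    (hd : ∀ z, 0 < (fderiv ℝ U z).det) : Function.Injective U := by
  intro z1 z2 h12
  by_contra hne
  have hc : Continuous U := hs.continuous
  have hO := opn hs hd
  -- the difference is not an integer vector
  have hni : ∀ w, z1 - z2 ≠ jv w := by
    intro w hw
    have e1 : z1 = z2 + jv w := by
      rw [← hw]
      abel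
    have e2 : U z1 = U z2 + jv w := by
      rw [e1]
      exact eqv_j hE z2 w
    rw [h12] at e2
    have e3 : jv w = 0 := by
      have := e2.symm
      rwa [add_eq_left] at this
    rw [e3, sub_eq_zero] at hw
    exact hne hw
  obtain ⟨d, hd0, hdw⟩ := dist_vec hni
  obtain ⟨B2, hB2⟩ : ∃ B2, B2 = Metric.ball z2 (d / 2) := ⟨_, rfl⟩
  obtain ⟨B1, hB1⟩ : ∃ B1, B1 = Metric.ball z1 (d / 2) ∩ U ⁻¹' (U '' B2) := ⟨_, rfl⟩
  have hB1o : IsOpen B1 := by
    rw [hB1]
    refine Metric.isOpen_ball.inter ((hO _ ?_).preimage hc)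
    rw [hB2]
    exact Metric.isOpen_ball
  have hB1n : B1.Nonempty := by
    refine ⟨z1, ?_⟩
    rw [hB1]
    refine ⟨Metric.mem_ball_self (by linarith), z2, ?_, h12.symm⟩
    rw [hB2]
    exact Metric.mem_ball_self (by linarith)
  obtain ⟨D, hD⟩ : ∃ D : Set E, D = ⋃ w, {z | z + jv w ∈ B1} := ⟨_, rfl⟩
  have hDo : IsOpen D := by
    rw [hD]
    refine isOpen_iUnion fun w => ?_
    exact hB1o.preimage (continuous_id.add continuous_const)
  have hDB2 : ∀ b ∈ B2, ∀ w, b + jv w ∉ D := by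
    intro b hb w hbw
    rw [hD] at hbw
    obtain ⟨w', hw'⟩ := mem_iUnion.1 hbw
    have h1 : b + jv w + jv w' ∈ Metric.ball z1 (d / 2) := by
      have : b + jv w + jv w' ∈ B1 := hw'
      rw [hB1] at this
      exact this.1
    rw [hB2] at hb
    rw [Metric.mem_ball, dist_eq_norm] at h1 hb
    have h2 := hdw (w + w')
    have e : jv (w + w') = jv w + jv w' := by
      unfold jv iv
      ext <;> simp
    rw [e] at h2
    have h3 : ‖z1 - z2 - (jv w + jv w')‖ ≤ ‖b + jv w + jv w' - z1‖ + ‖b - z2‖ := by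
      have e2 : z1 - z2 - (jv w + jv w') = (b - z2) - (b + jv w + jv w' - z1) := by abel
      rw [e2]
      have := norm_sub_le (b - z2) (b + jv w + jv w' - z1)
      linarith
    linarith
  obtain ⟨P, hP⟩ : ∃ P : Set E, P = Q0 \ D := ⟨_, rfl⟩
  have hPm : MeasurableSet P := by
    rw [hP]
    exact q0_meas.diff hDo.measurableSet
  -- invariance of `D`
  have hDinv : ∀ z w, z + jv w ∈ D → z ∈ D := by
    intro z w hzw
    rw [hD] at hzw ⊢
    obtain ⟨w', hw'⟩ := mem_iUnion.1 hzw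
    refine mem_iUnion.2 ⟨w + w', ?_⟩
    show z + jv (w + w') ∈ B1
    have e : jv (w + w') = jv w + jv w' := by
      unfold jv iv
      ext <;> simp
    rw [e, ← add_assoc]
    exact hw'
  -- the image of `P` meets all classes
  have hcov : ∀ y : E, ∃ w, y + jv w ∈ U '' P := by
    have key : ∀ z : E, z ∉ D → ∃ w, U z + jv w ∈ U '' P := by
      intro z hz
      obtain ⟨w, hw⟩ := q0_ex z
      have e0 : jv (-w) = - jv w := by
        unfold jv iv
        ext <;> simp
      refine ⟨-w, z - jv w, ?_, ?_⟩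
      · rw [hP]
        refine ⟨hw, fun h => hz ?_⟩
        apply hDinv z (-w)
        rw [e0, ← sub_eq_add_neg]
        exact h
      · rw [e0, eqv_jm hE, sub_eq_add_neg]
    intro y
    obtain ⟨z, rfl⟩ := surj hs hE hd y
    by_cases hz : z ∈ D
    · rw [hD] at hz
      obtain ⟨w, hw⟩ := mem_iUnion.1 hz
      have hw1 : z + jv w ∈ B1 := hw
      rw [hB1] at hw1
      obtain ⟨-, b, hb, hUb⟩ := hw1
      have hbD : b ∉ D := by
        intro h
        have e0 : jv 0 = 0 := by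
          unfold jv iv
          ext <;> simp
        apply hDB2 b hb 0
        rw [e0, add_zero]
        exact h
      obtain ⟨w', hw'⟩ := key b hbD
      refine ⟨w + w', ?_⟩
      have e : jv (w + w') = jv w + jv w' := by
        unfold jv iv
        ext <;> simp
      rw [e, ← add_assoc, ← eqv_j hE, ← hUb]
      exact hw'
    · exact key z hz
  -- measures
  have hdc : Continuous fun z => (fderiv ℝ U z).det :=
    ContinuousLinearMap.continuous_det.comp (hs.continuous_fderiv (by simp))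
  have hint : IntegrableOn (fun z => (fderiv ℝ U z).det) Q :=
    hdc.continuousOn.integrableOn_compact (isCompact_Icc.prod isCompact_Icc)
  have hL : ∫⁻ z in Q, ENNReal.ofReal |(fderiv ℝ U z).det| = 1 := by
    have h1 := ofReal_integral_eq_lintegral_ofReal hint
      (Eventually.of_forall fun z => (hd z).le)
    rw [hItg U hs hE, ENNReal.ofReal_one] at h1
    rw [h1]
    refine lintegral_congr fun z => ?_
    rw [abs_of_pos (hd z)]
  have hU : volume (U '' P) ≤ ∫⁻ z in P, ENNReal.ofReal |(fderiv ℝ U z).det| :=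
    addHaar_image_le_lintegral_abs_det_fderiv volume hPm
      (fun z _ => (strict hs z).hasFDerivAt.hasFDerivWithinAt)
  have h1P : 1 ≤ ∫⁻ z in P, ENNReal.ofReal |(fderiv ℝ U z).det| := (vol_ge _ hcov).trans hU
  obtain ⟨w, hw⟩ := vol_pos hB1o hB1n
  have hposm : 0 < volume (Q0 ∩ D) := by
    refine lt_of_lt_of_le hw (measure_mono ?_)
    rintro z ⟨hz1, hz2⟩
    refine ⟨hz1, ?_⟩
    rw [hD]
    exact mem_iUnion.2 ⟨w, hz2⟩
  have hpos : 0 < ∫⁻ z in Q0 ∩ D, ENNReal.ofReal |(fderiv ℝ U z).det| := by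
    rw [lintegral_pos_iff_support (by
      exact (hdc.abs.measurable).ennreal_ofReal)]
    have hsup : (Function.support fun z => ENNReal.ofReal |(fderiv ℝ U z).det|) = univ := by
      rw [eq_univ_iff_forall]
      intro z
      rw [Function.mem_support]
      exact (ENNReal.ofReal_pos.2 (abs_pos.2 (hd z).ne')).ne'
    rw [hsup, Measure.restrict_apply_univ]
    exact hposm
  have hsplit : ∫⁻ z in Q0, ENNReal.ofReal |(fderiv ℝ U z).det| =
      (∫⁻ z in Q0 ∩ D, ENNReal.ofReal |(fderiv ℝ U z).det|) +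
        ∫⁻ z in P, ENNReal.ofReal |(fderiv ℝ U z).det| := by
    rw [hP]
    exact (lintegral_inter_add_diff _ Q0 hDo.measurableSet).symm
  have hle : ∫⁻ z in Q0, ENNReal.ofReal |(fderiv ℝ U z).det| ≤ 1 := by
    rw [← hL]
    exact lintegral_mono_set q0_sub
  rw [hsplit] at hle
  have h2 : (∫⁻ z in Q0 ∩ D, ENNReal.ofReal |(fderiv ℝ U z).det|) + 1 ≤ 0 + 1 := by
    rw [zero_add]
    exact (add_le_add le_rfl h1P).trans hle
  have h3 := (ENNReal.add_le_add_iff_right ENNReal.one_ne_top).1 h2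
  exact absurd h3 (not_le.2 hpos)

end

theorem dif (h1 : ItgStmt) : DifStmt := by
  intro U hs hE hd
  have hb : Function.Bijective U := ⟨inj h1 hs hE hd, surj hs hE hd⟩
  obtain ⟨e, he⟩ : ∃ e : E ≃ₜ E, ∀ z, e z = U z :=
    ⟨(Equiv.ofBijective U hb).toHomeomorphOfContinuousOpen hs.continuous (opn hs hd),
      fun z => rfl⟩
  have hfe : (e : E → E) = U := funext he
  refine ⟨e.symm, ?_, ?_, ?_, ?_⟩
  · refine Homeomorph.contDiff_symm e (f₀' := fun z =>
      (fderiv ℝ U z).toContinuousLinearEquivOfDetNeZero (hd z).ne') ?_ ?_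
    · intro z
      rw [hfe, ContinuousLinearMap.coe_toContinuousLinearEquivOfDetNeZero]
      exact (strict hs z).hasFDerivAt
    · rw [hfe]
      exact hs
  · intro a b z
    apply e.injective
    rw [e.apply_symm_apply, he, hE a b, ← he, e.apply_symm_apply]
  · intro z
    rw [← he, e.symm_apply_apply]
  · intro z
    rw [← he, e.apply_symm_apply]

end Pool.Agent.PRT.H75
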