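import Pool.Agent.PRT.StmtsD

/-!
# Squad PRT, row PAR: primitives with parameter
-/

set_option autoImplicit false

namespace Pool.Agent.PRT.H75P

open Set MeasureTheory Filter Topology
open scoped ContDiff
open Pool.Agent.PRT

/-- the primitive with parameter -/
noncomputable def gg (f : E → ℝ) (x y : ℝ) : ℝ := ∫ t in (0 : ℝ)..y, f (x, t)

/-- the partial derivative in the first variable -/
noncomputable def d1 (f : E → ℝ) (z : E) : ℝ := fderiv ℝ f z (1, 0)

theorem d1_smooth {f : E → ℝ} (hf : ContDiff ℝ ∞ f) : ContDiff ℝ ∞ (d1 f) :=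
  (hf.fderiv_right (by simp)).clm_apply contDiff_const

theorem d1_deriv {f : E → ℝ} (hf : ContDiff ℝ ∞ f) (x t : ℝ) :
    HasDerivAt (fun x => f (x, t)) (d1 f (x, t)) x := by
  have h1 : HasFDerivAt f (fderiv ℝ f (x, t)) (x, t) :=
    ((hf.differentiable (by simp)) (x, t)).hasFDerivAt
  have h2 : HasDerivAt (fun x : ℝ => ((x, t) : E)) (1, 0) x :=
    (hasDerivAt_id x).prodMk (hasDerivAt_const x t)
  exact h1.comp_hasDerivAt x h2

theorem cont_line {f : E → ℝ} (hf : Continuous f) (x : ℝ) : Continuous fun t : ℝ => f (x, t) :=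
  hf.comp (continuous_const.prodMk continuous_id)

theorem part_x {f : E → ℝ} (hf : ContDiff ℝ ∞ f) (x y : ℝ) :
    HasDerivAt (fun x => gg f x y) (gg (d1 f) x y) x := by
  have hc : Continuous (d1 f) := (d1_smooth hf).continuous
  have hK : IsCompact (Metric.closedBall x 1 ×ˢ uIcc (0 : ℝ) y) :=
    (isCompact_closedBall x 1).prod isCompact_uIcc
  obtain ⟨C, hC⟩ := hK.exists_bound_of_continuousOn hc.continuousOn
  refine (intervalIntegral.hasDerivAt_integral_of_dominated_loc_of_deriv_le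
    (F := fun x t => f (x, t)) (F' := fun x t => d1 f (x, t)) (bound := fun _ => C)
    (Metric.ball_mem_nhds x one_pos) ?_ ?_ ?_ ?_ ?_ ?_).2
  · exact Eventually.of_forall fun x' => (cont_line hf.continuous x').aestronglyMeasurable
  · exact (cont_line hf.continuous x).intervalIntegrable 0 y
  · exact (cont_line hc x).aestronglyMeasurable
  · refine Eventually.of_forall fun t ht x' hx' => ?_
    exact hC (x', t) ⟨Metric.ball_subset_closedBall hx', uIoc_subset_uIcc ht⟩
  · exact intervalIntegrable_const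
  · exact Eventually.of_forall fun t _ x' _ => d1_deriv hf x' t

theorem part_y {f : E → ℝ} (hf : Continuous f) (x y : ℝ) :
    HasDerivAt (fun y => gg f x y) (f (x, y)) y := by
  have hc := cont_line hf x
  exact intervalIntegral.integral_hasDerivAt_right (hc.intervalIntegrable 0 y)
    (hc.stronglyMeasurableAtFilter _ _) hc.continuousAt

theorem gg_cont {f : E → ℝ} (hf : Continuous f) : Continuous fun z : E => gg f z.1 z.2 :=
  intervalIntegral.continuous_parametric_primitive_of_continuous (f := fun x t => f (x, t)) (by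
    exact hf)

theorem gg_fderiv {f : E → ℝ} (hf : ContDiff ℝ ∞ f) (z : E) :
    HasFDerivAt (fun z : E => gg f z.1 z.2) (gg (d1 f) z.1 z.2 • ContinuousLinearMap.fst ℝ ℝ ℝ +
      f z • ContinuousLinearMap.snd ℝ ℝ ℝ) z := by
  have h := hasStrictFDerivAt_uncurry_coprod (u := z) (f := gg f)
    (f₁ := fun x y => ContinuousLinearMap.toSpanSingleton ℝ (gg (d1 f) x y))
    (f₂ := fun x y => ContinuousLinearMap.toSpanSingleton ℝ (f (x, y)))
    (Eventually.of_forall fun v => (part_x hf v.1 v.2).hasFDerivAt)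
    (Eventually.of_forall fun v => (part_y hf.continuous v.1 v.2).hasFDerivAt)
    (by
      have h1 : Continuous fun v : E =>
          ContinuousLinearMap.toSpanSingleton ℝ (gg (d1 f) v.1 v.2) :=
        (ContinuousLinearMap.toSpanSingletonCLE (𝕜 := ℝ) (E := ℝ)).continuous.comp
          (gg_cont (d1_smooth hf).continuous)
      exact h1.continuousAt)
    (by
      have h1 : Continuous fun v : E => ContinuousLinearMap.toSpanSingleton ℝ (f (v.1, v.2)) :=
        (ContinuousLinearMap.toSpanSingletonCLE (𝕜 := ℝ) (E := ℝ)).continuous.comp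
          hf.continuous
      exact h1.continuousAt)
  have h2 := h.hasFDerivAt
  have e : (ContinuousLinearMap.toSpanSingleton ℝ (gg (d1 f) z.1 z.2)).coprod
      (ContinuousLinearMap.toSpanSingleton ℝ (f (z.1, z.2))) =
        gg (d1 f) z.1 z.2 • ContinuousLinearMap.fst ℝ ℝ ℝ +
          f z • ContinuousLinearMap.snd ℝ ℝ ℝ := by
    ext u <;> simp [mul_comm]
  rw [← e]
  exact h2

theorem gg_fderiv_eq {f : E → ℝ} (hf : ContDiff ℝ ∞ f) : fderiv ℝ (fun z : E => gg f z.1 z.2) =
    fun z => gg (d1 f) z.1 z.2 • ContinuousLinearMap.fst ℝ ℝ ℝ +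
      f z • ContinuousLinearMap.snd ℝ ℝ ℝ :=
  funext fun z => (gg_fderiv hf z).fderiv

theorem gg_smooth_nat (n : ℕ) : ∀ f : E → ℝ, ContDiff ℝ ∞ f →
    ContDiff ℝ n (fun z : E => gg f z.1 z.2) := by
  induction n with
  | zero =>
    intro f hf
    rw [Nat.cast_zero, contDiff_zero]
    exact gg_cont hf.continuous
  | succ n ih =>
    intro f hf
    rw [Nat.cast_succ, contDiff_succ_iff_fderiv]
    refine ⟨fun z => (gg_fderiv hf z).differentiableAt, fun h => absurd h (by simp), ?_⟩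
    rw [gg_fderiv_eq hf]
    exact ((ih _ (d1_smooth hf)).smul contDiff_const).add
      ((hf.of_le (by exact_mod_cast le_top)).smul contDiff_const)

theorem gg_smooth {f : E → ℝ} (hf : ContDiff ℝ ∞ f) :
    ContDiff ℝ ∞ (fun z : E => gg f z.1 z.2) :=
  contDiff_infty.2 fun n => gg_smooth_nat n f hf

theorem smul_bound {V : Type} [NormedAddCommGroup V] [NormedSpace ℝ V] {φ : E → ℝ}
    (hφ : ContDiff ℝ ∞ φ) (L : V) (hL : ‖L‖ ≤ 1) (i : ℕ) (z : E) :
    ‖iteratedFDeriv ℝ i (fun z => φ z • L) z‖ ≤ ‖iteratedFDeriv ℝ i φ z‖ := by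
  have hfi : ContDiffAt ℝ i φ z := (hφ.of_le (by exact_mod_cast le_top)).contDiffAt
  have h := (ContinuousLinearMap.toSpanSingleton ℝ L).norm_iteratedFDeriv_comp_left (n := i)
    (x := z) hfi le_rfl
  refine h.trans ?_
  rw [ContinuousLinearMap.norm_toSpanSingleton]
  exact mul_le_of_le_one_left (norm_nonneg _) hL

theorem d1_bound {f : E → ℝ} (hf : ContDiff ℝ ∞ f) (i : ℕ) (z : E) :
    ‖iteratedFDeriv ℝ i (d1 f) z‖ ≤ ‖iteratedFDeriv ℝ (i + 1) f z‖ := by
  have hs : ContDiff ℝ ∞ (fderiv ℝ f) := hf.fderiv_right (by simp)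
  have hfi : ContDiffAt ℝ i (fderiv ℝ f) z := (hs.of_le (by exact_mod_cast le_top)).contDiffAt
  have h := (ContinuousLinearMap.apply ℝ ℝ ((1, 0) : E)).norm_iteratedFDeriv_comp_left (n := i)
    (x := z) hfi le_rfl
  rw [norm_iteratedFDeriv_fderiv] at h
  refine h.trans (mul_le_of_le_one_left (norm_nonneg _) ?_)
  refine ContinuousLinearMap.opNorm_le_bound _ zero_le_one fun L => ?_
  have h1 := L.le_opNorm ((1, 0) : E)
  have h2 : ‖((1, 0) : E)‖ = 1 := by simp [Prod.norm_def]
  rw [h2, mul_one] at h1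
  rw [one_mul]
  exact h1

theorem gg_bound (i : ℕ) : ∀ (f : E → ℝ), ContDiff ℝ ∞ f → ∀ (k : ℕ) (C : ℝ), i ≤ k →
    Bd k C f → ∀ z : E, 0 ≤ z.2 → z.2 ≤ 1 →
      ‖iteratedFDeriv ℝ i (fun z : E => gg f z.1 z.2) z‖ ≤ (i + 1) * C := by
  induction i with
  | zero =>
    intro f hf k C _ hB z h0 h1
    have hC := hB.nonneg
    have h2 : ‖gg f z.1 z.2‖ ≤ C * |z.2 - 0| :=
      intervalIntegral.norm_integral_le_of_norm_le_const fun t _ => hB.norm_le (z.1, t)
    rw [sub_zero, abs_of_nonneg h0] at h2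
    rw [norm_iteratedFDeriv_zero]
    refine h2.trans ?_
    push_cast
    nlinarith
  | succ i ih =>
    intro f hf k C hik hB z h0 h1
    have hC := hB.nonneg
    obtain ⟨k', rfl⟩ : ∃ k', k = k' + 1 := ⟨k - 1, by omega⟩
    have hs1 : ContDiff ℝ ∞ (d1 f) := d1_smooth hf
    have hB1 : Bd k' C (d1 f) := fun j hj w =>
      (d1_bound hf j w).trans (hB (j + 1) (by omega) w)
    rw [← norm_iteratedFDeriv_fderiv, gg_fderiv_eq hf]
    have c1 : ContDiffAt ℝ i (fun z : E => gg (d1 f) z.1 z.2 • ContinuousLinearMap.fst ℝ ℝ ℝ) z :=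
      ((gg_smooth hs1).smul contDiff_const).contDiffAt.of_le (by exact_mod_cast le_top)
    have c2 : ContDiffAt ℝ i (fun z : E => f z • ContinuousLinearMap.snd ℝ ℝ ℝ) z :=
      (hf.smul contDiff_const).contDiffAt.of_le (by exact_mod_cast le_top)
    rw [fun_iteratedFDeriv_add_apply c1 c2]
    have b1 := smul_bound (gg_smooth hs1) (ContinuousLinearMap.fst ℝ ℝ ℝ)
      (ContinuousLinearMap.norm_fst_le ℝ ℝ ℝ) i z
    have b2 := smul_bound hf (ContinuousLinearMap.snd ℝ ℝ ℝ)
      (ContinuousLinearMap.norm_snd_le ℝ ℝ ℝ) i z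
    have b3 := ih (d1 f) hs1 k' C (by omega) hB1 z h0 h1
    have b4 := hB i (by omega) z
    refine (norm_add_le _ _).trans ?_
    push_cast
    linarith

theorem par : ParStmt := by
  intro f hf
  refine ⟨gg_smooth hf, ?_⟩
  intro k C hB i hi z h0 h1
  have hC := hB.nonneg
  refine (gg_bound i f hf k C hi hB z h0 h1).trans ?_
  have : (i : ℝ) ≤ k := by exact_mod_cast hi
  exact mul_le_mul_of_nonneg_right (by linarith) hC

end Pool.Agent.PRT.H75P
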